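import Mathlib

set_option autoImplicit false
set_option maxHeartbeats 400000

namespace Pool.Agent.Results.MP_d6d41b_al.NotTrans

/-- Strong o-conjugacy in a monoid. -/
def SO {S : Type} [Monoid S] (a b : S) : Prop :=
  ∃ g h : S, g * h * g = g ∧ h * g * h = h ∧ a * g = g * b ∧ b * h = h * a

abbrev P := ℕ × ℕ

def st (t : Bool) (p : P) : P :=
  if p.2 = 0 ∨ 2 * p.1 < p.2 then (p.1 + 1, 0)
  else if p.2 = 1 then (if t then p.1 + p.1 % 2 else p.1, 0) else (p.1, p.2 - 1)

def phi (p : P) : P :=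
  if p.2 = 0 ∨ 2 * p.1 < p.2 then (p.1, 0) else (p.1 + p.1 % 2, p.2)

def psi (p : P) : P :=
  if p.2 = 0 ∨ 2 * p.1 < p.2 then (p.1 + 1, 0)
  else if p.1 % 2 = 1 then (p.1 + 1, p.2) else (p.1, p.2 - 1)

theorem phi_st (p : P) : st false (phi p) = phi (st true p) := by
  obtain ⟨n, i⟩ := p
  unfold st phi
  dsimp only
  split_ifs <;> simp_all <;> omega

theorem psi_st (p : P) : st true (psi p) = psi (st false p) := by
  obtain ⟨n, i⟩ := p
  unfold st psi
  dsimp only
  split_ifs <;> simp_all <;> omega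

def rk (t : Bool) (p : P) : ℕ :=
  if p.2 = 0 then (if t then 2 * p.1 - p.1 % 2 else 2 * p.1) else 2 * p.1 - p.2

theorem rk_st (t : Bool) (p : P) : rk t p + 1 ≤ rk t (st t p) := by
  obtain ⟨n, i⟩ := p
  unfold st rk
  cases t <;> dsimp only <;> split_ifs <;> simp_all <;> omega

abbrev X := Bool × P

def E (f : Bool → Bool) : Function.End X := fun x => (x.1, st (f x.1) x.2)

theorem rk_it (t : Bool) (k : ℕ) (x : X) : k ≤ rk t ((E fun _ => t)^[k] x).2 := by
  induction k with
  | zero => simp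
  | succ k ih =>
    rw [Function.iterate_succ_apply']
    exact (Nat.succ_le_succ ih).trans (rk_st t _)

theorem down (t β : Bool) (n : ℕ) (hn : t = false ∨ n % 2 = 0) (i : ℕ) (hi : i ≤ 2 * n) :
    (E fun _ => t)^[i] (β, n, i) = (β, n, 0) := by
  induction i with
  | zero => rfl
  | succ i ih =>
    rw [Function.iterate_succ_apply, ← ih (by omega)]
    congr 1
    unfold E st
    rcases hn with rfl | hn <;> dsimp only <;> split_ifs <;> simp_all <;> omega

theorem up (t β : Bool) (n k : ℕ) : (E fun _ => t)^[k] (β, n, 0) = (β, n + k, 0) := by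
  induction k with
  | zero => rfl
  | succ k ih => rw [Function.iterate_succ_apply', ih]; rfl

theorem ev (t : Bool) (β : Bool) (n i : ℕ) : ∃ k m, (E fun _ => t)^[k] (β, n, i) = (β, m, 0) := by
  induction i with
  | zero => exact ⟨0, n, rfl⟩
  | succ i ih =>
    by_cases h : 2 * n < i + 1 ∨ i = 0
    · refine ⟨1, (st t (n, i + 1)).1, ?_⟩
      change (β, st t (n, i + 1)) = _
      unfold st
      dsimp only
      split_ifs <;> simp_all
      omega
    · obtain ⟨k, m, hk⟩ := ih
      refine ⟨k + 1, m, ?_⟩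
      rw [Function.iterate_succ_apply, ← hk]
      congr 1
      unfold E st
      dsimp only
      split_ifs <;> simp_all <;> omega

theorem not_so : ¬ SO (E fun _ => false) (E fun _ => true) := by
  rintro ⟨g, h, h1, -, h3, h4⟩
  have hg : ∀ k x, (E fun _ => false)^[k] (g x) = g ((E fun _ => true)^[k] x) := fun k x =>
    (Function.Semiconj.iterate_right (fun y => (congrFun h3 y).symm) k x).symm
  have hh : ∀ k x, (E fun _ => true)^[k] (h x) = h ((E fun _ => false)^[k] x) := fun k x =>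
    (Function.Semiconj.iterate_right (fun y => (congrFun h4 y).symm) k x).symm
  have ev' : ∀ (t : Bool) (x : X), ∃ k β m, (E fun _ => t)^[k] x = (β, m, 0) := fun t x => by
    obtain ⟨k, m, h⟩ := ev t x.1 x.2.1 x.2.2
    exact ⟨k, x.1, m, h⟩
  obtain ⟨k, β, n, e1⟩ := ev' false (g (false, 0, 0))
  rw [hg] at e1
  have e2 : g (h (β, n, 0)) = (β, n, 0) := by rw [← e1]; exact congrFun h1 _
  obtain ⟨l, γ, m, e3⟩ := ev' true (h (β, n, 0))
  have e4 : h (β, n + (m + 1 + l), 0) = (γ, m + (m + 1), 0) := by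
    rw [← up false, ← hh, Function.iterate_add_apply, e3, up]
  have e5 : g (γ, m + (m + 1), 0) = (β, n + (m + 1 + l), 0) := by
    rw [← e4, ← up false, ← hh, ← hg, e2]
  have r1 := rk_it true (2 * (n + (m + 1 + l))) (h (β, n + (m + 1 + l), 2 * (n + (m + 1 + l))))
  rw [hh, down _ _ _ (Or.inl rfl) _ le_rfl, e4] at r1
  have r2 := rk_it false (1 + 2 * (2 * m)) (g (γ, 2 * m, 2 * (2 * m)))
  rw [hg, Function.iterate_add_apply, down _ _ _ (Or.inr (by omega)) _ le_rfl, up,
    show 2 * m + 1 = m + (m + 1) by ring, e5] at r2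
  simp only [rk, if_true, Bool.false_eq_true, if_false] at r1 r2
  omega

theorem result : ∃ (S : Type) (_ : Monoid S), (∀ x : S, ∃ y, x * y * x = x) ∧
    ∃ a b c : S, SO a b ∧ SO b c ∧ ¬ SO a c := by
  refine ⟨Function.End X, inferInstance, fun f => ⟨Function.invFun f, funext fun x => ?_⟩,
    E fun _ => false, E id, E fun _ => true,
    ⟨fun x => (false, if x.1 then phi x.2 else x.2), fun x => (false, x.2), rfl, rfl, ?_, rfl⟩,
    ⟨fun x => (true, x.2), fun x => (true, if x.1 then x.2 else psi x.2), rfl, rfl, rfl, ?_⟩,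
    not_so⟩
  · exact Function.invFun_eq ⟨x, rfl⟩
  · funext ⟨β, p⟩
    cases β
    · rfl
    · exact Prod.ext rfl (phi_st p)
  · funext ⟨β, p⟩
    cases β
    · exact Prod.ext rfl (psi_st p)
    · rfl

end Pool.Agent.Results.MP_d6d41b_al.NotTrans
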